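import Pool.Agent.H1.Mono.Targets

/-!
# KH: the Khinchine inequality for even moments
-/

open Finset Pool.Agent.H73.Xor

namespace Pool.Agent.H1.Mono

lemma KHchoose_le (r k : ℕ) : (2 * r).choose (2 * k) ≤ (2 * r) ^ k * r.choose k := by
  induction k with
  | zero => simp
  | succ k ih =>
    rcases le_or_gt r k with hk | hk
    · rw [Nat.choose_eq_zero_of_lt (by omega : 2 * r < 2 * (k + 1))]
      exact Nat.zero_le _
    have h1 := Nat.choose_succ_right_eq (2 * r) (2 * k)
    have h2 := Nat.choose_succ_right_eq (2 * r) (2 * k + 1)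
    have h3 := Nat.choose_succ_right_eq r k
    obtain ⟨d, rfl⟩ : ∃ d, r = k + 1 + d := ⟨r - (k + 1), by omega⟩
    rw [show 2 * (k + 1 + d) - 2 * k = 2 * (d + 1) by omega] at h1
    rw [show 2 * (k + 1 + d) - (2 * k + 1) = 2 * d + 1 by omega] at h2
    rw [show k + 1 + d - k = d + 1 by omega] at h3
    rw [show 2 * (k + 1) = 2 * k + 1 + 1 by ring]
    set A := (2 * (k + 1 + d)).choose (2 * k)
    set B := (2 * (k + 1 + d)).choose (2 * k + 1)
    set C := (2 * (k + 1 + d)).choose (2 * k + 1 + 1)
    set E := (k + 1 + d).choose k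
    set F := (k + 1 + d).choose (k + 1)
    have h4 : C * ((2 * k + 2) * (2 * k + 1)) = A * (2 * (d + 1) * (2 * d + 1)) := by
      calc C * ((2 * k + 2) * (2 * k + 1)) = C * (2 * k + 1 + 1) * (2 * k + 1) := by ring
        _ = B * (2 * d + 1) * (2 * k + 1) := by rw [h2]
        _ = B * (2 * k + 1) * (2 * d + 1) := by ring
        _ = A * (2 * (d + 1)) * (2 * d + 1) := by rw [h1]
        _ = _ := by ring
    have h5 : C * ((2 * k + 2) * (2 * k + 1)) ≤
        ((2 * (k + 1 + d)) ^ (k + 1) * F) * ((2 * k + 2) * (2 * k + 1)) := by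
      rw [h4]
      calc A * (2 * (d + 1) * (2 * d + 1))
          ≤ ((2 * (k + 1 + d)) ^ k * E) * (2 * (d + 1) * (2 * d + 1)) :=
            Nat.mul_le_mul_right _ ih
        _ = (2 * (k + 1 + d)) ^ k * (E * (d + 1)) * (2 * (2 * d + 1)) := by ring
        _ = (2 * (k + 1 + d)) ^ k * (F * (k + 1)) * (2 * (2 * d + 1)) := by rw [← h3]
        _ ≤ (2 * (k + 1 + d)) ^ k * (F * (k + 1)) * (2 * (2 * (k + 1 + d) * (2 * k + 1))) := by
            apply Nat.mul_le_mul_left
            apply Nat.mul_le_mul_left
            nlinarith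
        _ = _ := by ring
    exact Nat.le_of_mul_le_mul_right h5 (by positivity)

lemma KHeven_sum (r : ℕ) (g : ℕ → ℝ) :
    ∑ m ∈ range (2 * r + 1), (1 + (-1) ^ m) * g m = 2 * ∑ k ∈ range (r + 1), g (2 * k) := by
  induction r with
  | zero => norm_num
  | succ r ih =>
    rw [show 2 * (r + 1) + 1 = (2 * r + 1) + 1 + 1 by ring, sum_range_succ, sum_range_succ, ih,
      sum_range_succ _ (r + 1)]
    have h1 : (-1 : ℝ) ^ (2 * r + 1) = -1 := by
      rw [pow_succ, pow_mul]
      simp
    have h2 : (-1 : ℝ) ^ (2 * r + 1 + 1) = 1 := by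
      rw [pow_succ, h1]
      simp
    rw [h1, h2, show 2 * r + 1 + 1 = 2 * (r + 1) by ring]
    ring

lemma KHadd_sub (r : ℕ) (x y : ℝ) :
    (x + y) ^ (2 * r) + (x - y) ^ (2 * r) =
      2 * ∑ k ∈ range (r + 1), (y ^ 2) ^ k * x ^ (2 * (r - k)) * ((2 * r).choose (2 * k) : ℝ) := by
  have h := KHeven_sum r (fun m => y ^ m * x ^ (2 * r - m) * ((2 * r).choose m : ℝ))
  rw [show x + y = y + x by ring, show x - y = -y + x by ring, add_pow, add_pow,
    ← sum_add_distrib]
  have h' : ∀ k ∈ range (r + 1), (y ^ 2) ^ k * x ^ (2 * (r - k)) * ((2 * r).choose (2 * k) : ℝ) =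
      y ^ (2 * k) * x ^ (2 * r - 2 * k) * ((2 * r).choose (2 * k) : ℝ) := by
    intro k _
    rw [← pow_mul, show 2 * (r - k) = 2 * r - 2 * k by omega]
  rw [sum_congr rfl h', ← h]
  apply sum_congr rfl
  intro m _
  rw [show (-y) ^ m = (-1) ^ m * y ^ m by rw [← mul_pow]; ring]
  ring

theorem KH : KH_target := by
  intro Q _ _ a r
  have key : ∀ s : Finset Q, ∀ r : ℕ, ∑ y : Q → Bool, (∑ q ∈ s, a q * sgn (y q)) ^ (2 * r) ≤
      2 ^ Fintype.card Q * (2 * r : ℝ) ^ r * (∑ q ∈ s, a q ^ 2) ^ r := by
    intro s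
    induction s using Finset.induction_on with
    | empty =>
      intro r
      rcases Nat.eq_zero_or_pos r with rfl | hr
      · simp
      · simp [hr.ne']
    | insert q0 s hq0 ih =>
      intro r
      simp only [sum_insert hq0]
      -- flipping the coordinate `q0`
      let fl : (Q → Bool) ≃ (Q → Bool) :=
        { toFun := fun y => Function.update y q0 (!y q0)
          invFun := fun y => Function.update y q0 (!y q0)
          left_inv := fun y => by ext q; by_cases h : q = q0 <;> simp [h, Function.update]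
          right_inv := fun y => by ext q; by_cases h : q = q0 <;> simp [h, Function.update] }
      have hsgn : ∀ b : Bool, sgn b ^ 2 = 1 := by
        intro b
        cases b <;> simp [sgn]
      have hneg : ∀ b : Bool, sgn (!b) = -sgn b := by
        intro b
        cases b <;> simp [sgn]
      set S : (Q → Bool) → ℝ := fun y => ∑ q ∈ s, a q * sgn (y q) with hS
      set σ : ℝ := ∑ q ∈ s, a q ^ 2 with hσ
      have hσ0 : 0 ≤ σ := sum_nonneg fun q _ => sq_nonneg _
      have hflS : ∀ y, S (fl y) = S y := by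
        intro y
        simp only [hS]
        apply sum_congr rfl
        intro q hq
        have hne : q ≠ q0 := fun h => hq0 (h ▸ hq)
        simp [fl, Function.update_of_ne hne]
      have h1 : ∑ y : Q → Bool, (a q0 * sgn (y q0) + S y) ^ (2 * r) =
          ∑ y : Q → Bool, (-(a q0 * sgn (y q0)) + S y) ^ (2 * r) := by
        rw [← Equiv.sum_comp fl]
        apply sum_congr rfl
        intro y _
        rw [hflS]
        congr 2
        simp [fl, hneg]
      have h2 : ∀ y : Q → Bool, (a q0 * sgn (y q0) + S y) ^ (2 * r) +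
          (-(a q0 * sgn (y q0)) + S y) ^ (2 * r) =
          2 * ∑ k ∈ range (r + 1), (a q0 ^ 2) ^ k * S y ^ (2 * (r - k)) *
            ((2 * r).choose (2 * k) : ℝ) := by
        intro y
        have := KHadd_sub r (S y) (a q0 * sgn (y q0))
        rw [show a q0 * sgn (y q0) + S y = S y + a q0 * sgn (y q0) by ring,
          show -(a q0 * sgn (y q0)) + S y = S y - a q0 * sgn (y q0) by ring, this]
        rw [mul_pow, hsgn, mul_one]
      have h3 : ∑ y : Q → Bool, (a q0 * sgn (y q0) + S y) ^ (2 * r) =
          ∑ k ∈ range (r + 1), (a q0 ^ 2) ^ k * ((2 * r).choose (2 * k) : ℝ) *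
            ∑ y : Q → Bool, S y ^ (2 * (r - k)) := by
        have h4 : 2 * ∑ y : Q → Bool, (a q0 * sgn (y q0) + S y) ^ (2 * r) =
            2 * ∑ k ∈ range (r + 1), (a q0 ^ 2) ^ k * ((2 * r).choose (2 * k) : ℝ) *
              ∑ y : Q → Bool, S y ^ (2 * (r - k)) := by
          calc 2 * ∑ y : Q → Bool, (a q0 * sgn (y q0) + S y) ^ (2 * r)
              = ∑ y : Q → Bool, ((a q0 * sgn (y q0) + S y) ^ (2 * r) +
                  (-(a q0 * sgn (y q0)) + S y) ^ (2 * r)) := by
                rw [sum_add_distrib, ← h1]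
                ring
            _ = ∑ y : Q → Bool, 2 * ∑ k ∈ range (r + 1), (a q0 ^ 2) ^ k * S y ^ (2 * (r - k)) *
                  ((2 * r).choose (2 * k) : ℝ) := sum_congr rfl fun y _ => h2 y
            _ = _ := by
                rw [← mul_sum, sum_comm]
                congr 1
                apply sum_congr rfl
                intro k _
                rw [mul_sum]
                apply sum_congr rfl
                intro y _
                ring
        linarith
      rw [h3]
      calc ∑ k ∈ range (r + 1), (a q0 ^ 2) ^ k * ((2 * r).choose (2 * k) : ℝ) *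
            ∑ y : Q → Bool, S y ^ (2 * (r - k))
          ≤ ∑ k ∈ range (r + 1), (a q0 ^ 2) ^ k * ((2 * r).choose (2 * k) : ℝ) *
            (2 ^ Fintype.card Q * (2 * (r - k : ℕ) : ℝ) ^ (r - k) * σ ^ (r - k)) := by
            apply sum_le_sum
            intro k _
            exact mul_le_mul_of_nonneg_left (ih (r - k)) (by positivity)
        _ ≤ ∑ k ∈ range (r + 1), 2 ^ Fintype.card Q * (2 * r : ℝ) ^ r *
            ((a q0 ^ 2) ^ k * σ ^ (r - k) * (r.choose k : ℝ)) := by
            apply sum_le_sum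
            intro k hk
            have hk' : k ≤ r := by
              have := mem_range.1 hk
              omega
            have h5 : ((2 * r).choose (2 * k) : ℝ) * (2 * (r - k : ℕ) : ℝ) ^ (r - k) ≤
                (2 * r : ℝ) ^ r * (r.choose k : ℝ) := by
              have h6 : ((2 * r).choose (2 * k) : ℝ) ≤ (2 * r : ℝ) ^ k * (r.choose k : ℝ) := by
                exact_mod_cast KHchoose_le r k
              have h7 : (2 * (r - k : ℕ) : ℝ) ^ (r - k) ≤ (2 * r : ℝ) ^ (r - k) := by
                apply pow_le_pow_left₀ (by positivity)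
                have : ((r - k : ℕ) : ℝ) ≤ r := by exact_mod_cast Nat.sub_le r k
                linarith
              calc ((2 * r).choose (2 * k) : ℝ) * (2 * (r - k : ℕ) : ℝ) ^ (r - k)
                  ≤ ((2 * r : ℝ) ^ k * (r.choose k : ℝ)) * (2 * r : ℝ) ^ (r - k) :=
                    mul_le_mul h6 h7 (by positivity) (by positivity)
                _ = ((2 * r : ℝ) ^ k * (2 * r : ℝ) ^ (r - k)) * (r.choose k : ℝ) := by ring
                _ = _ := by rw [← pow_add, Nat.add_sub_cancel' hk']
            calc (a q0 ^ 2) ^ k * ((2 * r).choose (2 * k) : ℝ) *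
                (2 ^ Fintype.card Q * (2 * (r - k : ℕ) : ℝ) ^ (r - k) * σ ^ (r - k))
                = (2 ^ Fintype.card Q * (a q0 ^ 2) ^ k * σ ^ (r - k)) *
                  (((2 * r).choose (2 * k) : ℝ) * (2 * (r - k : ℕ) : ℝ) ^ (r - k)) := by ring
              _ ≤ (2 ^ Fintype.card Q * (a q0 ^ 2) ^ k * σ ^ (r - k)) *
                  ((2 * r : ℝ) ^ r * (r.choose k : ℝ)) :=
                  mul_le_mul_of_nonneg_left h5 (by positivity)
              _ = _ := by ring
        _ = 2 ^ Fintype.card Q * (2 * r : ℝ) ^ r * (a q0 ^ 2 + σ) ^ r := by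
            rw [← mul_sum, add_pow]
  simpa using key univ r

end Pool.Agent.H1.Mono
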